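import Mathlib

set_option autoImplicit false

namespace Pool.Agent.H.DD5

open Finset

theorem var_bd {α : Type} [Fintype α] (u : α → ℝ) (h0 : ∑ a, u a = 0) (h1 : ∀ a, u a ^ 2 ≤ 1)
    (t : ℕ) : ∑ K : Fin t → α, (∑ s, u (K s)) ^ 2 ≤ t * (Fintype.card α : ℝ) ^ t := by
  induction t with
  | zero => simp
  | succ t ih =>
    rw [← (Fin.consEquiv (fun _ => α)).sum_comp, Fintype.sum_prod_type]
    have e : ∀ (a : α) (K : Fin t → α), (∑ s, u ((Fin.consEquiv (fun _ => α)) (a, K) s)) ^ 2 =
        u a ^ 2 + 2 * (u a * ∑ s, u (K s)) + (∑ s, u (K s)) ^ 2 := by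
      intro a K
      rw [Fin.sum_univ_succ]
      simp only [Fin.consEquiv_apply, Fin.cons_zero, Fin.cons_succ]
      ring
    simp only [e, sum_add_distrib, ← mul_sum, ← sum_mul, h0, sum_const, card_univ, nsmul_eq_mul,
      Fintype.card_fun, Fintype.card_fin]
    have h2 : ∑ a, u a ^ 2 ≤ Fintype.card α := by
      calc ∑ a, u a ^ 2 ≤ ∑ _a : α, (1 : ℝ) := sum_le_sum (fun a _ => h1 a)
        _ = _ := by simp
    have h3 : (0 : ℝ) ≤ (Fintype.card α : ℝ) ^ t := by positivity
    have h4 : (0 : ℝ) ≤ (Fintype.card α : ℝ) := by positivity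
    push_cast
    rw [pow_succ]
    nlinarith [mul_le_mul_of_nonneg_left h2 h3, mul_le_mul_of_nonneg_left ih h4]

theorem sample {α ι : Type} [Fintype α] [Fintype ι] [Nonempty α] (z : ι → α → ℝ)
    (h0 : ∀ i a, 0 ≤ z i a) (h1 : ∀ i a, z i a ≤ 1) (t : ℕ) (ht : 0 < t) :
    ∃ K : Fin t → α, ∑ i, ((∑ a, z i a) / Fintype.card α - (∑ s, z i (K s)) / t) ^ 2 ≤
      Fintype.card ι / t := by
  have hc : (0 : ℝ) < Fintype.card α := by exact_mod_cast Fintype.card_pos
  have ht' : (0 : ℝ) < t := by exact_mod_cast ht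
  have key : ∀ i, ∑ K : Fin t → α, ((∑ a, z i a) / Fintype.card α - (∑ s, z i (K s)) / t) ^ 2 ≤
      (Fintype.card α : ℝ) ^ t / t := by
    intro i
    set μ := (∑ a, z i a) / Fintype.card α with hμ
    have μ0 : 0 ≤ μ := div_nonneg (sum_nonneg (fun a _ => h0 i a)) hc.le
    have μ1 : μ ≤ 1 := by
      rw [hμ, div_le_one hc]
      calc ∑ a, z i a ≤ ∑ _a : α, (1 : ℝ) := sum_le_sum (fun a _ => h1 i a)
        _ = _ := by simp
    have := var_bd (fun a => z i a - μ) (by
      rw [sum_sub_distrib, sum_const, card_univ, nsmul_eq_mul, hμ]; field_simp; ring)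
      (fun a => by nlinarith [h0 i a, h1 i a]) t
    have e : ∀ K : Fin t → α, (μ - (∑ s, z i (K s)) / t) ^ 2 =
        (∑ s, (z i (K s) - μ)) ^ 2 / t ^ 2 := by
      intro K
      rw [sum_sub_distrib, sum_const, card_univ, nsmul_eq_mul, Fintype.card_fin]
      field_simp; ring
    simp only [e, ← sum_div]
    rw [div_le_div_iff₀ (by positivity) ht']
    nlinarith [mul_le_mul_of_nonneg_right this ht'.le]
  by_contra hcon
  push Not at hcon
  have h2 : ∑ _K : Fin t → α, (Fintype.card ι / t : ℝ) <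
      ∑ K : Fin t → α, ∑ i, ((∑ a, z i a) / Fintype.card α - (∑ s, z i (K s)) / t) ^ 2 :=
    sum_lt_sum_of_nonempty univ_nonempty (fun K _ => hcon K)
  rw [sum_comm] at h2
  have h3 := sum_le_sum (s := (univ : Finset ι)) (fun i _ => key i)
  simp only [sum_const, card_univ, nsmul_eq_mul, Fintype.card_fun, Fintype.card_fin] at h2 h3
  push_cast at h2
  have : (Fintype.card α : ℝ) ^ t * (Fintype.card ι / t) =
    Fintype.card ι * ((Fintype.card α : ℝ) ^ t / t) := by ring
  linarith

open Classical in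
theorem sum_graph (n : ℕ) (w : Fin n × Fin n → Bool → ℝ) (hw : ∀ p b, 0 ≤ w p b) (M : ℝ)
    (hM1 : 1 ≤ M) (hM : ∀ p, w p true + w p false ≤ M) :
    ∑ G : SimpleGraph (Fin n), ∏ p : Fin n × Fin n,
      (if p.1 < p.2 then w p (decide (G.Adj p.1 p.2)) else 1) ≤ M ^ (n ^ 2) := by
  let w' : Fin n × Fin n → Bool → ℝ := fun p b =>
    if p.1 < p.2 then w p b else if b then 0 else 1
  let x : SimpleGraph (Fin n) → (Fin n × Fin n → Bool) := fun G p =>
    decide (p.1 < p.2 ∧ G.Adj p.1 p.2)
  have hx : Function.Injective x := by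
    intro G H h
    have : ∀ i j, i < j → (G.Adj i j ↔ H.Adj i j) := by
      intro i j hij
      have := congrFun h (i, j)
      simpa [x, hij] using this
    ext i j
    rcases lt_trichotomy i j with h | rfl | h
    · exact this i j h
    · simp
    · rw [G.adj_comm, H.adj_comm]; exact this j i h
  have w0 : ∀ p b, 0 ≤ w' p b := by
    intro p b; simp only [w']; split_ifs <;> simp [hw]
  calc _ = ∑ G : SimpleGraph (Fin n), ∏ p, w' p (x G p) := by
        refine sum_congr rfl (fun G _ => prod_congr rfl (fun p _ => ?_))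
        by_cases h : p.1 < p.2 <;> simp [w', x, h]
    _ = ∑ y ∈ univ.image x, ∏ p, w' p (y p) := by
        rw [sum_image (fun a _ b _ h => hx h)]
    _ ≤ ∑ y : Fin n × Fin n → Bool, ∏ p, w' p (y p) :=
        sum_le_sum_of_subset_of_nonneg (subset_univ _)
          (fun y _ _ => prod_nonneg (fun p _ => w0 _ _))
    _ = ∏ p, ∑ b, w' p b := by
        rw [prod_univ_sum, Fintype.piFinset_univ]
    _ ≤ ∏ _p : Fin n × Fin n, M := by
        refine prod_le_prod (fun p _ => sum_nonneg (fun b _ => w0 _ _)) (fun p _ => ?_)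
        simp only [w', Fintype.sum_bool]
        split_ifs <;> simp_all
    _ = M ^ (n ^ 2) := by simp [sq]

noncomputable def q {n t : ℕ} (P : Fin t → Fin n → Bool) (p : Fin n × Fin n) (b : Bool) : ℝ :=
  (∑ s, if xor b (xor (P s p.1) (P s p.2)) then (0 : ℝ) else 1) / t

theorem q_nonneg {n t : ℕ} (P : Fin t → Fin n → Bool) (p : Fin n × Fin n) (b : Bool) :
    0 ≤ q P p b := div_nonneg (sum_nonneg (fun s _ => by split_ifs <;> simp)) (by positivity)

theorem q_add {n t : ℕ} (ht : 0 < t) (P : Fin t → Fin n → Bool) (p : Fin n × Fin n) :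
    q P p true + q P p false = 1 := by
  have ht' : (0 : ℝ) < t := by exact_mod_cast ht
  unfold q
  rw [← add_div, ← sum_add_distrib, div_eq_one_iff_eq ht'.ne']
  calc _ = ∑ _s : Fin t, (1 : ℝ) := sum_congr rfl (fun s _ => by
        cases P s p.1 <;> cases P s p.2 <;> simp)
    _ = _ := by simp

theorem pt (φ ψ r ε : ℝ) (hε : 0 < ε) (hr : 0 ≤ r) (h : φ ≤ ψ + ε) :
    φ ≤ (r + 2 * ε) * Real.exp ((ψ - r) ^ 2 / ε ^ 2) := by
  have h1 := Real.add_one_le_exp ((ψ - r) ^ 2 / ε ^ 2)
  have h2 : ψ - r ≤ ε + ε * ((ψ - r) ^ 2 / ε ^ 2) := by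
    have : ε * ((ψ - r) ^ 2 / ε ^ 2) = (ψ - r) ^ 2 / ε := by field_simp
    rw [this, ← sub_le_iff_le_add', le_div_iff₀ hε]
    nlinarith [sq_nonneg (ψ - r - ε)]
  have h3 : 0 ≤ (ψ - r) ^ 2 / ε ^ 2 := by positivity
  nlinarith [mul_le_mul_of_nonneg_left h1 (show 0 ≤ r + 2 * ε by positivity), mul_nonneg hr h3,
    mul_nonneg hε.le h3]

open Classical in
theorem one_graph (n t : ℕ) (ht : 0 < t) (ε : ℝ) (hε : 0 < ε) (hn : 2 < (n : ℝ))
    (hn2 : 2 / ((n : ℝ) - 2) ≤ ε) (G : SimpleGraph (Fin n)) :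
    ∃ P : Fin t → Fin n → Bool,
      (∏ i : Fin n, ∏ j : Fin n,
          (if i < j then
            (((Finset.univ.filter (fun k : Fin n => k ≠ i ∧ k ≠ j ∧
                Even ((if G.Adj i j then 1 else 0) + (if G.Adj i k then 1 else 0)
                  + (if G.Adj j k then 1 else 0) : ℕ))).card : ℝ) / ((n : ℝ) - 2))
          else 1)) ≤ Real.exp ((n : ℝ) ^ 2 / t / ε ^ 2) * ∏ p : Fin n × Fin n,
      (if p.1 < p.2 then q P p (decide (G.Adj p.1 p.2)) + 2 * ε else 1) := by
  have hn0 : 0 < n := by exact_mod_cast (show (0 : ℝ) < n by linarith)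
  haveI : Nonempty (Fin n) := ⟨⟨0, hn0⟩⟩
  let z : Fin n × Fin n → Fin n → ℝ := fun p k =>
    if xor (decide (G.Adj p.1 p.2)) (xor (decide (G.Adj p.1 k)) (decide (G.Adj p.2 k))) then 0 else 1
  have z0 : ∀ p k, 0 ≤ z p k := fun p k => by simp only [z]; split_ifs <;> simp
  have z1 : ∀ p k, z p k ≤ 1 := fun p k => by simp only [z]; split_ifs <;> simp
  obtain ⟨K, hK⟩ := sample z z0 z1 t ht
  refine ⟨fun s i => decide (G.Adj i (K s)), ?_⟩
  rw [← Fintype.prod_prod_type']
  simp only [Fintype.card_fin, Fintype.card_prod] at hK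
  calc _ ≤ ∏ p : Fin n × Fin n,
        (Real.exp (((∑ a, z p a) / n - (∑ s, z p (K s)) / t) ^ 2 / ε ^ 2) *
          (if p.1 < p.2 then q (fun s i => decide (G.Adj i (K s))) p (decide (G.Adj p.1 p.2))
            + 2 * ε else 1)) := by
        refine prod_le_prod (fun p _ => ?_) (fun p _ => ?_)
        · by_cases hp : p.1 < p.2
          · rw [if_pos hp]; exact div_nonneg (by positivity) (by linarith)
          · simp [hp]
        · by_cases hp : p.1 < p.2
          · rw [if_pos hp, if_pos hp, mul_comm]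
            refine pt _ _ _ ε hε (q_nonneg _ _ _) ?_
            have a1 : ((Finset.univ.filter (fun k : Fin n => k ≠ p.1 ∧ k ≠ p.2 ∧
                Even ((if G.Adj p.1 p.2 then 1 else 0) + (if G.Adj p.1 k then 1 else 0)
                  + (if G.Adj p.2 k then 1 else 0) : ℕ))).card : ℝ) ≤ ∑ a, z p a := by
              rw [card_filter]
              push_cast
              refine sum_le_sum (fun k _ => ?_)
              by_cases h1 : G.Adj p.1 p.2 <;> by_cases h2 : G.Adj p.1 k <;>
                by_cases h3 : G.Adj p.2 k <;> simp (decide := true) [z, h1, h2, h3] <;>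
                split_ifs <;> simp
            have a2 : ∑ a, z p a ≤ n := by
              calc ∑ a, z p a ≤ ∑ _a : Fin n, (1 : ℝ) := sum_le_sum (fun a _ => z1 p a)
                _ = _ := by simp
            have a3 : (∑ a, z p a) / ((n : ℝ) - 2) =
                (∑ a, z p a) / n + (∑ a, z p a) / n * (2 / ((n : ℝ) - 2)) := by
              have : (n : ℝ) - 2 ≠ 0 := by linarith
              have : (n : ℝ) ≠ 0 := by linarith
              field_simp; ring
            have a4 : (∑ a, z p a) / n ≤ 1 := by rw [div_le_one (by linarith)]; exact a2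
            have a5 : 0 ≤ 2 / ((n : ℝ) - 2) := div_nonneg (by norm_num) (by linarith)
            refine (div_le_div_of_nonneg_right a1 (c := (n : ℝ) - 2) (by linarith)).trans ?_
            rw [a3]
            nlinarith [mul_le_mul_of_nonneg_right a4 a5]
          · rw [if_neg hp, if_neg hp, mul_one]; exact Real.one_le_exp (by positivity)
    _ ≤ _ := by
        rw [prod_mul_distrib, ← Real.exp_sum]
        refine mul_le_mul_of_nonneg_right (Real.exp_le_exp.2 ?_) (prod_nonneg (fun p _ => ?_))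
        · rw [← sum_div]
          refine div_le_div_of_nonneg_right ?_ (by positivity)
          refine hK.trans (le_of_eq ?_)
          push_cast; ring
        · split_ifs
          · have := q_nonneg (fun s i => decide (G.Adj i (K s))) p (decide (G.Adj p.1 p.2))
            positivity
          · simp

open Classical in
theorem total (n t : ℕ) (ht : 0 < t) (ε : ℝ) (hε : 0 < ε) (hn : 2 < (n : ℝ))
    (hn2 : 2 / ((n : ℝ) - 2) ≤ ε) :
    (∑ G : SimpleGraph (Fin n), ∏ i : Fin n, ∏ j : Fin n,
          (if i < j then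
            (((Finset.univ.filter (fun k : Fin n => k ≠ i ∧ k ≠ j ∧
                Even ((if G.Adj i j then 1 else 0) + (if G.Adj i k then 1 else 0)
                  + (if G.Adj j k then 1 else 0) : ℕ))).card : ℝ) / ((n : ℝ) - 2))
          else 1)) ≤ Real.exp ((n : ℝ) ^ 2 / t / ε ^ 2 + t * n + 4 * ε * n ^ 2) := by
  have nn : ∀ (P : Fin t → Fin n → Bool) (G : SimpleGraph (Fin n)), 0 ≤ ∏ p : Fin n × Fin n,
      (if p.1 < p.2 then q P p (decide (G.Adj p.1 p.2)) + 2 * ε else 1) := by
    intro P G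
    refine prod_nonneg (fun p _ => ?_)
    have := q_nonneg P p (decide (G.Adj p.1 p.2))
    by_cases hp : p.1 < p.2
    · rw [if_pos hp]; positivity
    · simp [hp]
  calc _ ≤ ∑ G : SimpleGraph (Fin n), Real.exp ((n : ℝ) ^ 2 / t / ε ^ 2) *
        ∑ P : Fin t → Fin n → Bool, ∏ p : Fin n × Fin n,
          (if p.1 < p.2 then q P p (decide (G.Adj p.1 p.2)) + 2 * ε else 1) := by
        refine sum_le_sum (fun G _ => ?_)
        obtain ⟨P, hP⟩ := one_graph n t ht ε hε hn hn2 G
        exact hP.trans (mul_le_mul_of_nonneg_left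
          (single_le_sum (f := fun P : Fin t → Fin n → Bool => ∏ p : Fin n × Fin n,
          (if p.1 < p.2 then q P p (decide (G.Adj p.1 p.2)) + 2 * ε else 1))
            (fun P _ => nn P G) (mem_univ P)) (Real.exp_pos _).le)
    _ ≤ Real.exp ((n : ℝ) ^ 2 / t / ε ^ 2) *
        ∑ _P : Fin t → Fin n → Bool, (1 + 4 * ε) ^ (n ^ 2) := by
        rw [← mul_sum, sum_comm]
        refine mul_le_mul_of_nonneg_left (sum_le_sum (fun P _ => ?_)) (Real.exp_pos _).le
        refine sum_graph n (fun p b => q P p b + 2 * ε)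
          (fun p b => by have := q_nonneg P p b; positivity) _ (by linarith) (fun p => ?_)
        have := q_add ht P p
        linarith
    _ ≤ _ := by
        rw [Real.exp_add, Real.exp_add, mul_assoc (Real.exp _)]
        refine mul_le_mul_of_nonneg_left ?_ (Real.exp_pos _).le
        simp only [sum_const, card_univ, Fintype.card_fun, Fintype.card_fin, Fintype.card_bool,
          nsmul_eq_mul]
        refine mul_le_mul ?_ ?_ (by positivity) (Real.exp_pos _).le
        · push_cast
          rw [← pow_mul, show (t : ℝ) * n = ((n * t : ℕ) : ℝ) * 1 by push_cast; ring,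
            Real.exp_nat_mul]
          refine pow_le_pow_left₀ (by norm_num) ?_ _
          have := Real.add_one_le_exp (1 : ℝ)
          linarith
        · rw [show 4 * ε * (n : ℝ) ^ 2 = ((n ^ 2 : ℕ) : ℝ) * (4 * ε) by push_cast; ring,
            Real.exp_nat_mul]
          refine pow_le_pow_left₀ (by positivity) ?_ _
          have := Real.add_one_le_exp (4 * ε)
          linarith

end Pool.Agent.H.DD5
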